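import Pool.Agent.H874Z.Top
import Pool.Agent.H874Z.Turing

set_option autoImplicit false

namespace Pool.Agent.Results.MP_a48249_lc.ABaireOne

/-- There are a countable group acting by homeomorphisms on Baire space and a Baire class one
bijection from Cantor space onto Baire space carrying Turing equivalence exactly onto the orbit
equivalence relation. -/
theorem result :
    ∃ (Γ : Type) (_ : Group Γ) (_ : Countable Γ) (_ : MulAction Γ (ℕ → ℕ)),
      (∀ g : Γ, IsHomeomorph fun u : ℕ → ℕ => g • u) ∧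
      ∃ Φ : (ℕ → Bool) → (ℕ → ℕ), Function.Bijective Φ ∧
        (∀ U : Set (ℕ → ℕ), IsOpen U →
          ∃ F : ℕ → Set (ℕ → Bool), (∀ n, IsClosed (F n)) ∧ Φ ⁻¹' U = ⋃ n, F n) ∧
        ∀ x y : ℕ → Bool,
          TuringEquivalent (fun n => Part.some (x n).toNat) (fun n => Part.some (y n).toNat) ↔
            ∃ g : Γ, g • Φ x = Φ y := by
  obtain ⟨S, hS⟩ := Pool.Agent.H874Z.Tu.exists_sys
  obtain ⟨Γ, i1, i2, i3, i4, Φ, h1, h2, h3⟩ := Pool.Agent.H874Z.Sy.main S
  exact ⟨Γ, i1, i2, i3, fun g => isHomeomorph_smul g, Φ, h1, h2,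
    fun x y => (hS x y).symm.trans (h3 x y)⟩

end Pool.Agent.Results.MP_a48249_lc.ABaireOne
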